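import Pool.Agent.Lib.MP_061dbe_an.GenB

namespace Pool.Agent.Results.MP_061dbe_an.Counterexample

open Metric Set

/-- The class A: analytic in the unit disc, f(0) = 0, f'(0) = 1. -/
def classA : Set (ℂ → ℂ) :=
  {f | DifferentiableOn ℂ f (ball 0 1) ∧ f 0 = 0 ∧ deriv f 0 = 1}

/-- The class S: univalent members of A. -/
def classS : Set (ℂ → ℂ) := {f | f ∈ classA ∧ InjOn f (ball 0 1)}

/-- The k-th Taylor coefficient at 0. -/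
noncomputable def coef (f : ℂ → ℂ) (k : ℕ) : ℂ := iteratedDeriv k f 0 / (k.factorial : ℂ)

/-- The Hadamard product (f * g)(z) = ∑ a_k b_k z^k. -/
noncomputable def hadamard (f g : ℂ → ℂ) (z : ℂ) : ℂ := ∑' k : ℕ, coef f k * coef g k * z ^ k

/-- The dual of a family F. -/
def dual (F : Set (ℂ → ℂ)) : Set (ℂ → ℂ) :=
  {f | f ∈ classA ∧ ∀ g ∈ F, ∀ z : ℂ, 0 < ‖z‖ → ‖z‖ < 1 → hadamard f g z ≠ 0}

/-- The Σ-neighbourhood Σ_δ(f). -/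
def sigmaNhd (δ : ℝ) (f : ℂ → ℂ) : Set (ℂ → ℂ) :=
  {g | g ∈ classA ∧ ∀ z ∈ ball (0 : ℂ) 1,
    ‖(deriv g z - deriv f z) - (g z - f z) / z‖ + ‖(deriv g z - deriv f z) + (g z - f z) / z‖
      < 2 * δ}

theorem result : ∀ f ∈ classA, ∀ δ : ℝ, 0 < δ → ¬ sigmaNhd δ f ⊆ dual classS := by
  intro f hf δ hδ H
  obtain ⟨g, h, z, hg, hn, hS, z0, z1, e⟩ := Pool.Agent.Lib.MP_061dbe_an.main hf.1 hf.2.1 hf.2.2 hδ
  exact (H ⟨hg, hn⟩).2 h hS z z0 z1 e.tsum_eq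

end Pool.Agent.Results.MP_061dbe_an.Counterexample
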